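import Mathlib
import Pool.Agent.H.MP_5068ad_an.B

namespace Pool.Agent.Results.MP_5068ad_an.No
open Pool.Agent.H.MP_5068ad_an

theorem result (𝕜 : Type) [RCLike 𝕜] : ∃ (A : Type) (_ : NonUnitalNormedRing A) (_ : NormedSpace 𝕜 A)
    (_ : IsScalarTower 𝕜 A A) (_ : SMulCommClass 𝕜 A A) (_ : CompleteSpace A),
    (OpenMul (fun a b : A => a * b) ∧ UnifOpenMul (fun a b : A => a * b) ∧
      WeakOpenMul (fun a b : A => a * b)) ∧
    (¬ OpenMul (arens1 (𝕜 := 𝕜) (A := A)) ∧ ¬ UnifOpenMul (arens1 (𝕜 := 𝕜) (A := A)) ∧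
      ¬ WeakOpenMul (arens1 (𝕜 := 𝕜) (A := A))) ∧
    (¬ OpenMul (arens2 (𝕜 := 𝕜) (A := A)) ∧ ¬ UnifOpenMul (arens2 (𝕜 := 𝕜) (A := A)) ∧
      ¬ WeakOpenMul (arens2 (𝕜 := 𝕜) (A := A))) := by
  obtain ⟨S, T, h, hS, hT, h0, e, he, hTe⟩ := shift 𝕜
  let C := (NN 𝕜 S T).topologicalClosure
  letI : NormedSpace 𝕜 C := C.toSubmodule.normedSpace
  let j : C →ₗᵢ[𝕜] _ := C.toSubmodule.subtypeₗᵢ
  have hA : ∀ x ∈ NN 𝕜 S T, ∃ a, j a = x := fun x hx =>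
    ⟨⟨x, (NN 𝕜 S T).le_topologicalClosure hx⟩, rfl⟩
  have u := unif (𝕜 := 𝕜) h hS hT
  have w1 := not_weak h hS hT h0 he hTe hA arens1 fun _ _ _ _ => Rep.a1 fun _ _ => rfl
  have w2 := not_weak h hS hT h0 he hTe hA arens2 fun _ _ _ _ => Rep.a2 fun _ _ => rfl
  exact ⟨C, inferInstance, inferInstance, inferInstance, inferInstance,
    (NN 𝕜 S T).isClosed_topologicalClosure.completeSpace_coe, ⟨u.open, u, u.open.weak⟩,
    ⟨fun k => w1 k.weak, fun k => w1 k.open.weak, w1⟩, fun k => w2 k.weak, fun k => w2 k.open.weak, w2⟩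

end Pool.Agent.Results.MP_5068ad_an.No
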